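import Mathlib
import Pool.Agent.W887.NS.Main

/-!
# The continuous theory of the hyperfinite II_1 factor is not simple

The definitions (types over a set, indiscernible sequences, dividing, simplicity) are in
`Pool.Agent.W887.NS.Defs`, on top of the structures, formulas and the hyperfinite II_1 factor of
`Pool.Agent.H504R3.SDefs`.

Idea: let `M` be the infinite tensor product of copies of the `2 × 2` matrices over an uncountable
index set `κ × ℕ`. By an approximation argument the value of a formula at elements of finite
subproducts depends only on their coordinates; so `M` is elementarily equivalent to `R`, and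
partial injections of the index set preserve the values of formulas. Let `Z_(k,m)` be the diagonal
unitary of trace zero of the factor `(k,m)` and let `B` consist of the `Z_(k,0)` and the `Z_(k,1)`.
The swap unitaries of the factors `(k,0)` and `(k,1)`, `k ∈ F`, for finite `F ⊆ κ`, converge to a type
`p` over `B` which contains `‖x x* - 1‖₂ = 0` and `‖x Z_(k,0) - Z_(k,1) x‖₂ = 0` for all `k`. The
elements of `B` have distance `√2`, so a separable subset `A` of `B` omits some `Z_(k,1)`. Replacing
`Z_(k,1)` by `Z_(k,j+1)` gives an `A`-indiscernible sequence `(b_j)` with `b_0 = B`, and the union of
the `p(x, b_j)` is inconsistent, since `Z_(k,1) ≠ Z_(k,2)` are not both equal to `x Z_(k,0) x*`.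
-/

set_option autoImplicit false

namespace Pool.Agent.Results.MP_baa3fb_lc.NotSimple

open Pool.Agent.H504R3.S Pool.Agent.W887.NS

/-- The continuous theory of the hyperfinite II_1 factor `R` is not simple. -/
theorem result (R : Str) (hR : R.IsHyperfinite) : ¬ IsSimple R :=
  not_simple R hR

end Pool.Agent.Results.MP_baa3fb_lc.NotSimple
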